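import Pool.Agent.Y518.CC.FStm
import Pool.Agent.W910.BG.T_REAL

/-!
# Colourings of Borel graphs without Vitali sets: names for the elements of the Baire space
-/

set_option autoImplicit false

namespace Pool.Agent.Y281.CC.REAL

open Pool.Agent.W868 Pool.Agent.W868.PName Pool.Agent.W910 Pool.Agent.W910.SY
open Pool.Agent.W910.BG.T_REAL (FR ndfn_FR val_check check_N nat_mem of_mem fr_of_isFunc)
open Pool.Agent.Y518.CC
open MeasureTheory
open ZFSet (pair)

variable {k : ℕ} {Γ : SimpleGraph (ℕ → ℕ)} {D : Dat k Γ}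

/-- the first of the sets containing the point -/
def WW (U : ℕ → Cn D) (j : ℕ) : Set (Om k) := {x | x ∈ (U j).1 ∧ ∀ i < j, x ∉ (U i).1}

theorem meas_WW (U : ℕ → Cn D) (j : ℕ) : MeasurableSet (WW U j) := by
  have h1 : WW U j = (U j).1 ∩ ⋂ i ∈ Finset.range j, ((U i).1)ᶜ := by
    ext x
    simp [WW]
  rw [h1]
  exact (U j).2.1.inter (Finset.measurableSet_biInter _ fun i _ => (U i).2.1.compl)

open Classical in
/-- the name of the real -/
noncomputable def ff (U : ℕ → ℕ → Cn D) (m : ℕ → ℕ → ℕ) (x : Om k) (n : ℕ) : ℕ :=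
  if h : ∃ j, x ∈ (U n j).1 then m n (Nat.find h) else 0

theorem exists_WW {U : ℕ → Cn D} {x : Om k} (h : ∃ j, x ∈ (U j).1) : ∃ j, x ∈ WW U j := by
  classical
  exact ⟨Nat.find h, Nat.find_spec h, fun i hi => Nat.find_min h hi⟩

theorem ff_eq {U : ℕ → ℕ → Cn D} {m : ℕ → ℕ → ℕ} {x : Om k} {n j : ℕ} (h : x ∈ WW (U n) j) :
    ff U m x n = m n j := by
  classical
  have h1 : ∃ j, x ∈ (U n j).1 := ⟨j, h.1⟩
  unfold ff
  rw [dif_pos h1]
  congr 1
  exact (Nat.find_eq_iff h1).2 ⟨h.1, fun i hi => h.2 i hi⟩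

theorem ff_zero {U : ℕ → ℕ → Cn D} {m : ℕ → ℕ → ℕ} {x : Om k} {n : ℕ}
    (h : ¬ ∃ j, x ∈ (U n j).1) : ff U m x n = 0 := by
  classical
  unfold ff
  rw [dif_neg h]

theorem ff_meas (U : ℕ → ℕ → Cn D) (m : ℕ → ℕ → ℕ) : Measurable (ff U m) := by
  refine measurable_pi_lambda _ fun n => measurable_to_countable' fun y => ?_
  have h1 : (fun x => ff U m x n) ⁻¹' {y} =
      (⋃ j, WW (U n) j ∩ {_x | m n j = y}) ∪ ((⋃ j, (U n j).1)ᶜ ∩ {_x | 0 = y}) := by
    ext x
    simp only [Set.mem_preimage, Set.mem_singleton_iff, Set.mem_union, Set.mem_iUnion,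
      Set.mem_inter_iff, Set.mem_ofPred_eq, Set.mem_compl_iff]
    by_cases h : ∃ j, x ∈ (U n j).1
    · obtain ⟨j, hj⟩ := exists_WW h
      rw [ff_eq hj]
      constructor
      · intro hy
        exact Or.inl ⟨j, hj, hy⟩
      · rintro (⟨j', hj', hy⟩ | ⟨hn, -⟩)
        · exact ((ff_eq (m := m) hj).symm.trans (ff_eq hj')).trans hy
        · exact absurd h hn
    · rw [ff_zero h]
      constructor
      · intro hy
        exact Or.inr ⟨h, hy⟩
      · rintro (⟨j', hj', hy⟩ | ⟨-, hy⟩)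
        · exact absurd ⟨j', hj'.1⟩ h
        · exact hy
  rw [h1]
  exact (MeasurableSet.iUnion fun j => (meas_WW (U n) j).inter (MeasurableSet.const _)).union
    ((MeasurableSet.iUnion fun j => (U n j).2.1).compl.inter (MeasurableSet.const _))

theorem exists_pos {U : ℕ → Cn D} {q : Cn D} (h : ∃ j, D.μ (q.1 ∩ (U j).1) ≠ 0) :
    ∃ j, D.μ (q.1 ∩ WW U j) ≠ 0 := by
  by_contra hc
  push Not at hc
  obtain ⟨j, hj⟩ := h
  apply hj
  refine measure_mono_null (t := ⋃ i, q.1 ∩ WW U i) ?_ (measure_iUnion_null hc)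
  rintro x ⟨hx, hxj⟩
  obtain ⟨i, hi⟩ := exists_WW ⟨j, hxj⟩
  exact Set.mem_iUnion.2 ⟨i, hx, hi⟩

theorem main (hDS : S_DS2) : S_REAL := by
  intro k Γ D π hR s hs hfun
  obtain ⟨s', hs', rfl⟩ := hs
  have hT := r0_mem hR (show r0 _ ∈ ruR D from Or.inl rfl) hs' 0
  obtain ⟨k₁, ⟨r, ⟨f, hf⟩, hkr⟩ | hk⟩ := gen_nm π hT
  · have hkT : ∃ f : NR k, Feq s' (realN D f) (π.g k₁) := ⟨f, hf.mono hkr⟩
    have h1 := r0_mem hR (show r0 _ ∈ ruR D from Or.inr (Or.inl rfl)) hs' k₁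
    simp only [dif_pos hkT] at h1
    have h2 := r1_mem hR (show r1 _ ∈ ruR D from Or.inr (Or.inr rfl)) (a := hkT.choose) h1 0
    exact ⟨hkT.choose, h1, (π.val_eq_iff hs' h2).2 ⟨k₁, hkT.choose_spec⟩⟩
  exfalso
  have hSN : ({s', check ZFSet.omega} : Set (PName (Cn D))) ⊆ π.N := by
    rintro x (rfl | rfl)
    · exact hs'
    · exact π.om
  obtain ⟨k', hk'⟩ := forcing_theorem (ndfn_FR s') π hSN (fr_of_isFunc s' π hfun)
  set p0 := π.g (max k₁ k') with hp0
  have hfr : ∀ π' : Pkg (Cn D), s' ∈ π'.N → π'.g 0 ≤ p0 → FR s' π' := by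
    intro π' h1 h2
    refine hk' π' ?_ ⟨0, h2.trans (π.g_le_right k₁ k')⟩
    rintro x (rfl | rfl)
    · exact h1
    · exact π'.om
  obtain ⟨U, hU2, hU3⟩ := hDS k Γ D
    (fun n => {r | ∃ m : ℕ, Fmem (check (pair (nat n) (nat m))) s' r}) p0
    (by
      rintro n q ⟨m, hm⟩ r hr
      exact ⟨m, hm.mono hr⟩)
    (by
      intro n q hq
      obtain ⟨π', hN', hg'⟩ := exists_pkg' ({s'} : Set (PName (Cn D)))
        (Set.countable_singleton _) q
      have hsN : s' ∈ π'.N := hN' rfl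
      obtain ⟨-, h2, -⟩ := hfr π' hsN (by rw [hg']; exact hq)
      obtain ⟨b, hb, hab⟩ := h2 (nat n) (nat_mem π' n)
      obtain ⟨m, rfl⟩ := of_mem π' hb
      rw [← val_check π' n m, π'.val_mem_iff (check_N π' n m) hsN] at hab
      obtain ⟨i, hi⟩ := hab
      refine ⟨π'.g i, ?_, m, hi⟩
      rw [← hg']
      exact π'.g_anti (Nat.zero_le i))
  choose m hm using hU2
  let F : NR k := ⟨ff U m, ff_meas U m⟩
  have claim : Feq s' (realN D F) p0 := by
    refine feq_dense fun q hq => ?_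
    obtain ⟨π', hN', hg'⟩ := exists_pkg' ({s', realN D F} ∪
      Set.range fun n : ℕ => Sys.nm (Cn D) {r | ∃ j, r.1 ⊆ WW (U n) j})
      ((Set.toFinite _).countable.union (Set.countable_range _)) q
    have hsN : s' ∈ π'.N := hN' (Or.inl (Or.inl rfl))
    have hrN : realN D F ∈ π'.N := hN' (Or.inl (Or.inr rfl))
    obtain ⟨f1, f2, f3⟩ := hfr π' hsN (by rw [hg']; exact hq)
    have hgq : ∀ i, π'.g i ≤ p0 := fun i => (π'.g_anti (Nat.zero_le i)).trans (by rw [hg']; exact hq)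
    -- genericity
    have key : ∀ n : ℕ, ∃ i j, (∀ x ∈ (π'.g i).1, ff U m x n = m n j) ∧
        pair (nat n) (nat (m n j)) ∈ π'.val s' ∧
        pair (nat n) (nat (m n j)) ∈ π'.val (realN D F) := by
      intro n
      obtain ⟨i, -, j, hij⟩ := gen_dense' π' (m := 0)
        (A := {r | ∃ j, r.1 ⊆ WW (U n) j}) (hN' (Or.inr ⟨n, rfl⟩))
        (by
          rintro r ⟨j, hj⟩ q' hq'
          exact ⟨j, (show q'.1 ⊆ r.1 from hq').trans hj⟩)
        (by
          intro q' hq'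
          have h1 : q' ≤ p0 := hq'.trans (hgq 0)
          obtain ⟨j0, hj0⟩ := exists_pos (hU3 n q' h1)
          exact ⟨⟨q'.1 ∩ WW (U n) j0, q'.2.1.inter (meas_WW (U n) j0), hj0⟩,
            fun y hy => hy.1, j0, fun y hy => hy.2⟩)
      have hfx : ∀ x ∈ (π'.g i).1, ff U m x n = m n j := fun x hx => ff_eq (hij hx)
      refine ⟨i, j, hfx, ?_, ?_⟩
      · rw [← val_check π' n (m n j), π'.val_mem_iff (check_N π' n (m n j)) hsN]
        refine ⟨i, (hm n j).mono ?_⟩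
        exact fun x hx => (hij hx).1
      · rw [← val_check π' n (m n j)]
        refine π'.val_mem_val (c := π'.g i) (n := i) (check_N π' n (m n j)) ?_ ?_
        · unfold realN
          rw [el_mk]
          exact ⟨⟨((n, m n j), π'.g i), hfx⟩, rfl, rfl⟩
        · exact le_rfl
    have heq : π'.val s' = π'.val (realN D F) := by
      ext z
      constructor
      · intro hz
        obtain ⟨a, ha, b, hb, rfl⟩ := f1 z hz
        obtain ⟨n, rfl⟩ := of_mem π' ha
        obtain ⟨i, j, -, h2, h3⟩ := key n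
        rw [f3 _ ha _ hb _ (nat_mem π' (m n j)) hz h2]
        exact h3
      · intro hz
        obtain ⟨y, hy, c, hc, ⟨i, hi⟩, rfl⟩ := π'.mem_val.1 hz
        unfold realN at hc
        rw [el_mk] at hc
        obtain ⟨⟨⟨⟨n, a⟩, V⟩, hV⟩, rfl, rfl⟩ := hc
        obtain ⟨i', j, h1, h2, -⟩ := key n
        obtain ⟨x, hx⟩ := (π'.g (max i i')).nonempty
        have h3 : ff U m x n = m n j := h1 x ((π'.g_le_right i i') hx)
        have h4 : ff U m x n = a := hV x ((show (π'.g i).1 ⊆ V.1 from hi)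
          ((π'.g_le_left i i') hx))
        have h5 : pair (nat n) (nat a) ∈ π'.val s' := by
          rw [← h4, h3]
          exact h2
        rw [val_check]
        exact h5
    obtain ⟨i, hi⟩ := (π'.val_eq_iff hsN hrN).1 heq
    refine ⟨π'.g i, ?_, hi⟩
    rw [← hg']
    exact π'.g_anti (Nat.zero_le i)
  exact hk p0 (π.g_le_left k₁ k') ⟨F, claim⟩

end Pool.Agent.Y281.CC.REAL
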